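import Pool.Agent.Helper20.MB.DefsN
import Pool.Agent.Helper20.M8.ExactD
import Pool.Agent.Helper76.HP.Q6aLin
import Pool.Agent.Helper93.HP.P4

/-!
# Common lemmas for the estimates of the sphere bundle metric
-/

open Filter Metric Module Set
open scoped Topology ContDiff RealInnerProductSpace Manifold

set_option maxSynthPendingDepth 3

namespace Pool.Agent.Helper60.MB
open Pool.Agent.Helper20.PC Pool.Agent.Helper20.HP Pool.Agent.Helper20.M8 Pool.Agent.Helper20.MB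

/-! ### symmetric positive forms -/

section
variable {E : Type*} [NormedAddCommGroup E] [NormedSpace ℝ E] {f : E →L[ℝ] E →L[ℝ] ℝ}

lemma form_cs (hs : ∀ a b, f a b = f b a) (hp : ∀ a, a ≠ 0 → 0 < f a a) (a b : E) :
    f a b ^ 2 ≤ f a a * f b b := by
  have hp' : ∀ a, 0 ≤ f a a := by
    intro a
    by_cases h : a = 0
    · simp [h]
    · exact (hp a h).le
  by_cases hb : b = 0
  · simp [hb]
  have h1 := hp b hb
  have h2 := hp' (f b b • a - f a b • b)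
  simp only [map_sub, map_smul, _root_.sub_apply, _root_.smul_apply, smul_eq_mul, hs b a] at h2
  have h3 : 0 ≤ f b b * (f a a * f b b - f a b ^ 2) := by
    have e : f b b * (f a a * f b b - f a b ^ 2) = f b b * (f b b * f a a - f a b * f a b)
        - f a b * (f b b * f a b - f a b * f b b) := by ring
    rw [e]; exact h2
  by_contra hc
  push Not at hc
  have := mul_neg_of_pos_of_neg h1 (sub_neg.mpr hc)
  linarith

lemma form_nonneg (hp : ∀ a, a ≠ 0 → 0 < f a a) (a : E) : 0 ≤ f a a := by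
  by_cases h : a = 0
  · simp [h]
  · exact (hp a h).le

lemma nrm_nonneg (f : E →L[ℝ] E →L[ℝ] ℝ) (a : E) : 0 ≤ nrm f a := Real.sqrt_nonneg _

lemma nrm_sq (hp : ∀ a, a ≠ 0 → 0 < f a a) (a : E) : nrm f a ^ 2 = f a a :=
  Real.sq_sqrt (form_nonneg hp a)

lemma nrm_one {a : E} (h : f a a = 1) : nrm f a = 1 := by rw [nrm, h, Real.sqrt_one]

lemma nrm_cs (hs : ∀ a b, f a b = f b a) (hp : ∀ a, a ≠ 0 → 0 < f a a) (a b : E) :
    |f a b| ≤ nrm f a * nrm f b := by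
  refine abs_le_of_sq_le_sq ?_ (mul_nonneg (nrm_nonneg _ _) (nrm_nonneg _ _))
  rw [mul_pow, nrm_sq hp, nrm_sq hp]
  exact form_cs hs hp a b

lemma nrm_le (hp : ∀ a, a ≠ 0 → 0 < f a a) {a : E} {c : ℝ} (hc : 0 ≤ c) (h : f a a ≤ c * nrm f a) :
    nrm f a ≤ c := by
  rcases (nrm_nonneg f a).eq_or_lt with h0 | h0
  · rw [← h0]; exact hc
  · rw [← nrm_sq hp] at h
    by_contra hcon
    push Not at hcon
    have := mul_lt_mul_of_pos_right hcon h0
    nlinarith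

end

/-! ### multilinearity of the derivatives -/

section
variable {V Y : Type*} [NormedAddCommGroup V] [NormedSpace ℝ V] [NormedAddCommGroup Y] [NormedSpace ℝ Y]
  {h : V → V →L[ℝ] V →L[ℝ] ℝ} {m : V → Y →L[ℝ] Y →L[ℝ] ℝ}
  {S : V → Y →L[ℝ] Y →L[ℝ] Y →L[ℝ] Y →L[ℝ] ℝ} {A : V → V →L[ℝ] Y →L[ℝ] Y} {x : V}

lemma dS4_s0 (r : ℝ) (ζ : V) (a b c d : Y) : dS4 S x (r • ζ) a b c d = r * dS4 S x ζ a b c d := by
  simp [dS4]

lemma dS4_s1 (r : ℝ) (ζ : V) (a b c d : Y) : dS4 S x ζ (r • a) b c d = r * dS4 S x ζ a b c d := by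
  have e : (fun x' => S x' (r • a) b c d) = r • (fun x' => S x' a b c d) := by
    funext x'; simp
  rw [dS4, e, fderiv_const_smul_field]
  rfl

lemma dS4_s2 (r : ℝ) (ζ : V) (a b c d : Y) : dS4 S x ζ a (r • b) c d = r * dS4 S x ζ a b c d := by
  have e : (fun x' => S x' a (r • b) c d) = r • (fun x' => S x' a b c d) := by
    funext x'; simp
  rw [dS4, e, fderiv_const_smul_field]
  rfl

lemma dS4_s3 (r : ℝ) (ζ : V) (a b c d : Y) : dS4 S x ζ a b (r • c) d = r * dS4 S x ζ a b c d := by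
  have e : (fun x' => S x' a b (r • c) d) = r • (fun x' => S x' a b c d) := by
    funext x'; simp
  rw [dS4, e, fderiv_const_smul_field]
  rfl

lemma dS4_s4 (r : ℝ) (ζ : V) (a b c d : Y) : dS4 S x ζ a b c (r • d) = r * dS4 S x ζ a b c d := by
  have e : (fun x' => S x' a b c (r • d)) = r • (fun x' => S x' a b c d) := by
    funext x'; simp
  rw [dS4, e, fderiv_const_smul_field]
  rfl

lemma ddS4_s0 (r : ℝ) (ξ ζ : V) (a b c d : Y) :
    ddS4 S x (r • ξ) ζ a b c d = r * ddS4 S x ξ ζ a b c d := by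
  simp [ddS4]

lemma ddS4_s1 (r : ℝ) (ξ ζ : V) (a b c d : Y) :
    ddS4 S x ξ (r • ζ) a b c d = r * ddS4 S x ξ ζ a b c d := by
  have e : (fun x' => dS4 S x' (r • ζ) a b c d) = r • (fun x' => dS4 S x' ζ a b c d) := by
    funext x'; rw [dS4_s0]; rfl
  rw [ddS4, e, fderiv_const_smul_field]
  rfl

lemma ddS4_s3 (r : ℝ) (ξ ζ : V) (a b c d : Y) :
    ddS4 S x ξ ζ a (r • b) c d = r * ddS4 S x ξ ζ a b c d := by
  have e : (fun x' => dS4 S x' ζ a (r • b) c d) = r • (fun x' => dS4 S x' ζ a b c d) := by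
    funext x'; rw [dS4_s2]; rfl
  rw [ddS4, e, fderiv_const_smul_field]
  rfl

lemma ddS4_s5 (r : ℝ) (ξ ζ : V) (a b c d : Y) :
    ddS4 S x ξ ζ a b c (r • d) = r * ddS4 S x ξ ζ a b c d := by
  have e : (fun x' => dS4 S x' ζ a b c (r • d)) = r • (fun x' => dS4 S x' ζ a b c d) := by
    funext x'; rw [dS4_s4]; rfl
  rw [ddS4, e, fderiv_const_smul_field]
  rfl

lemma OmV_smul (r s : ℝ) (ζ ζ' : V) : OmV A x (r • ζ) (s • ζ') = (r * s) • OmV A x ζ ζ' := by
  simp only [OmV, map_smul, _root_.smul_apply, ContinuousLinearMap.comp_smul,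
    ContinuousLinearMap.smul_comp, smul_add, smul_sub, smul_smul, mul_comm s r]

lemma OmV_smul_left (r : ℝ) (ζ ζ' : V) : OmV A x (r • ζ) ζ' = r • OmV A x ζ ζ' := by
  simpa using OmV_smul (A := A) (x := x) r 1 ζ ζ'

lemma OmV_smul_right (r : ℝ) (ζ ζ' : V) : OmV A x ζ (r • ζ') = r • OmV A x ζ ζ' := by
  simpa using OmV_smul (A := A) (x := x) 1 r ζ ζ'

variable [FiniteDimensional ℝ V]

lemma hS4_s (hh : MetAt h x) (r s u v : ℝ) (ξ ζ : V) (a b c d : Y) :
    hS4 h S x (r • ξ) (s • ζ) a (u • b) c (v • d) = (r * s * u * v) * hS4 h S x ξ ζ a b c d := by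
  rw [hS4, hS4, Pool.Agent.Helper76.HP.Gam_smul_left hh, Pool.Agent.Helper76.HP.Gam_smul_right hh,
    ddS4_s0, ddS4_s1, ddS4_s3, ddS4_s5, dS4_s0, dS4_s0, dS4_s2, dS4_s4]
  ring

lemma hS4_polar (hh : MetAt h x)
    (hS : @ContDiffAt ℝ _ V _ _ (Y →L[ℝ] Y →L[ℝ] Y →L[ℝ] Y →L[ℝ] ℝ) (ngk4 Y) (nsk4 Y) 2 S x) (ζ ζ' : V) (a b c d : Y) :
    hS4 h S x (ζ + ζ') (ζ + ζ') a b c d
      = hS4 h S x ζ ζ a b c d + hS4 h S x ζ' ζ' a b c d + 2 * hS4 h S x ζ ζ' a b c d := by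
  simp only [hS4, ddS4_polar hS, Pool.Agent.Helper76.HP.Gam_add_left hh,
    Pool.Agent.Helper76.HP.Gam_add_right hh, dS4_add, Gam_symm hh ζ' ζ]
  ring

lemma DOmV_smul (hh : MetAt h x) (r s t : ℝ) (ξ ζ ζ' : V) :
    DOmV h A x (r • ξ) (s • ζ) (t • ζ') = (r * s * t) • DOmV h A x ξ ζ ζ' := by
  have e : fderiv ℝ (fun x' => OmV A x' (s • ζ) (t • ζ')) x
      = (s * t) • fderiv ℝ (fun x' => OmV A x' ζ ζ') x := by
    have e1 : (fun x' => OmV A x' (s • ζ) (t • ζ')) = (s * t) • (fun x' => OmV A x' ζ ζ') := by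
      funext x'
      rw [OmV_smul]
      rfl
    rw [e1, fderiv_const_smul_field]
    rfl
  rw [DOmV, DOmV, e]
  simp only [Pool.Agent.Helper76.HP.Gam_smul_left hh, Pool.Agent.Helper76.HP.Gam_smul_right hh,
    OmV_smul_left, OmV_smul_right, map_smul, _root_.smul_apply, ContinuousLinearMap.comp_smul,
    ContinuousLinearMap.smul_comp, smul_add, smul_sub, smul_smul]
  congr 1
  · congr 1
    · congr 1
      · congr 1 <;> (congr 1; ring)
      · congr 1; ring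
    · congr 1; ring
  · congr 1; ring

end

end Pool.Agent.Helper60.MB
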