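import Pool.Agent.Helper20.HP.Data2

/-!
# MB-4a: the lower bound of the explicit part of the curvature formula
-/

open Filter Metric Module Set
open scoped Topology ContDiff RealInnerProductSpace Manifold

set_option maxSynthPendingDepth 3

namespace Pool.Agent.Helper60.MB
open Pool.Agent.Helper20.HP

/-! ### real inequalities -/

lemma low {c s k : ℝ} (h : |s| ≤ k) : -(k * |c|) ≤ c * s := by
  have h2 : |c * s| ≤ k * |c| := by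
    rw [abs_mul, mul_comm]; exact mul_le_mul_of_nonneg_right h (abs_nonneg c)
  exact (abs_le.mp h2).1

lemma Er_abs {δ xx z m1 m2 : ℝ} (hδ : 0 < δ) :
    Er δ xx z m1 m2 = |δ ^ 2 * xx ^ 2| + |z ^ 2| + |xx * z| + |δ * z * m1| + |δ * z * m2|
      + |δ ^ 3 * xx * m1| + |δ ^ 3 * xx * m2| + |δ ^ 4 * m1 ^ 2| + |δ ^ 4 * m2 ^ 2| := by
  have h1 := sq_abs xx
  have h2 := sq_abs z
  have h3 := sq_abs m1
  have h4 := sq_abs m2
  simp only [Er, abs_mul, abs_pow, abs_of_pos hδ]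
  rw [← h1, ← h2, ← h3, ← h4]
  ring

lemma mul_bd {s t a b : ℝ} (h1 : |s| ≤ a) (h2 : |t| ≤ b) : |s * t| ≤ a * b := by
  rw [abs_mul]; exact mul_le_mul h1 h2 (abs_nonneg _) ((abs_nonneg _).trans h1)

/-- the purely real estimate. -/
lemma real4 {δ b xx z m1 m2 : ℝ} (hδ : 0 < δ) (hδ1 : δ ≤ 1) (hb : 1 ≤ b) (hδb : δ ^ 2 * b ≤ 1 / 100)
    {K mU mT mUT sU sT sUT h1 h2 h12 d1 d2 s0 e1 e2 f1 f2 f3 f4 mw l1 l2 k1 k2 o1 o2 : ℝ}
    (emU : mU = 1 + δ ^ 2 * sU) (emT : mT = 1 + δ ^ 2 * sT) (emUT : mUT = δ ^ 2 * sUT)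
    (hsU : |sU| ≤ 11/10 * b) (hsT : |sT| ≤ 11/10 * b) (hsUT : |sUT| ≤ 11/10 * b)
    (hh12 : |h12| ≤ 22/10 * b) (hd1 : |d1| ≤ 11/10 * b) (hd2 : |d2| ≤ 11/10 * b)
    (hs0 : |s0| ≤ 11/10 * b) (he1 : |e1| ≤ 11/10 * b ^ 2) (he2 : |e2| ≤ 11/10 * b ^ 2)
    (hf1 : |f1| ≤ 11/10 * b ^ 2) (hf2 : |f2| ≤ 11/10 * b ^ 2) (hf3 : |f3| ≤ 11/10 * b ^ 2)
    (hf4 : |f4| ≤ 11/10 * b ^ 2) (hmw : |mw| ≤ 11/10 * b ^ 2)
    (hk1 : |k1| ≤ 11/10 * b ^ 2) (hk2 : |k2| ≤ 11/10 * b ^ 2)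
    (ho1 : |o1| ≤ 11/10 * b) (ho2 : |o2| ≤ 11/10 * b) :
    K * xx ^ 2 + (1/4) * (δ ^ 2)⁻¹ * z ^ 2
      + δ * xx * (m1 * (- l1) + m2 * (- l2))
      + δ ^ 2 * (m1 ^ 2 * ((1/2) * h1) + m2 ^ 2 * ((1/2) * h2))
      - 100 * b ^ 3 * Er δ xx z m1 m2
    ≤ K * xx ^ 2 + (δ ^ 2)⁻¹ * z ^ 2 * (mU * mT - mUT ^ 2)
      - 2 * z ^ 2 * (mU * sT + mT * sU - 2 * mUT * sUT)
      + (1/2) * δ ^ 2 * (m1 ^ 2 * h1 + m2 ^ 2 * h2)
      - δ ^ 2 * xx * z * h12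
      + 3 * δ * z * (m1 * d1 + m2 * d2)
      + 3 * z ^ 2 * s0
      + (3/2) * δ ^ 3 * xx * (m1 * e1 - m2 * e2)
      + (3/2) * δ ^ 2 * xx * z * (f1 + f2 - f3 - f4)
      - (3/4) * δ ^ 2 * xx ^ 2 * mw
      - δ * xx * m1 * (l1 - δ ^ 2 * k1) - δ * xx * m2 * (l2 - δ ^ 2 * k2)
      - (3/2) * xx * z * (o1 - o2) := by
  have hb0 : 0 < b := lt_of_lt_of_le one_pos hb
  have hB2 : b ^ 2 ≤ b ^ 3 := pow_le_pow_right₀ hb (by norm_num)
  have hB1 : b ≤ b ^ 2 := le_self_pow₀ hb (by norm_num)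
  have hB3 : b ≤ b ^ 3 := hB1.trans hB2
  have hβ : 0 < b ^ 3 := pow_pos hb0 3
  have hd2' : |δ ^ 2| ≤ 1 := by rw [abs_of_pos (pow_pos hδ 2)]; exact pow_le_one₀ hδ.le hδ1
  have hd20 : 0 < δ ^ 2 := pow_pos hδ 2
  -- the small quantities
  have sm : ∀ {t : ℝ}, |t| ≤ 11/10 * b → |δ ^ 2 * t| ≤ 11/1000 := by
    intro t ht
    rw [abs_mul, abs_of_pos hd20]
    have : δ ^ 2 * |t| ≤ δ ^ 2 * (11/10 * b) := by gcongr
    linarith only [hδb, this]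
  have qU := abs_le.mp (sm hsU)
  have qT := abs_le.mp (sm hsT)
  have qUT := abs_le.mp (sm hsUT)
  rw [← emUT] at qUT
  have hU1 : 989/1000 ≤ mU := by linarith only [emU, qU, qU.1]
  have hU2 : mU ≤ 1011/1000 := by linarith only [emU, qU, qU.2]
  have hT1 : 989/1000 ≤ mT := by linarith only [emT, qT, qT.1]
  have hT2 : mT ≤ 1011/1000 := by linarith only [emT, qT, qT.2]
  have hUT2 : mUT ^ 2 ≤ 1/1000 := by nlinarith only [hδb, hd20, hb, qUT, qUT.1, qUT.2]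
  have hmain : 1/4 ≤ mU * mT - mUT ^ 2 := by nlinarith only [hδb, emU, emT, hd20, qU, qT, hUT2, hb]
  have haU : |mU| ≤ 1011/1000 := by rw [abs_of_nonneg (by linarith only [emU, qU])]; exact hU2
  have haT : |mT| ≤ 1011/1000 := by rw [abs_of_nonneg (by linarith only [emT, qT])]; exact hT2
  have haUT : |mUT| ≤ 11/1000 := abs_le.mpr qUT
  have g1 := abs_le.mp (mul_bd haU hsT)
  have g2 := abs_le.mp (mul_bd haT hsU)
  have g3 := abs_le.mp (mul_bd haUT hsUT)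
  have P1 : -((10 * b ^ 3) * |z ^ 2|) ≤ (z ^ 2) * (-2 * (mU * sT + mT * sU - 2 * mUT * sUT) + 3 * s0) := by
    apply low
    have := abs_le.mp hs0
    rw [abs_le]
    constructor <;> linarith only [hb, hB2, hB1, g1, g2, g3, this, g1.1, g1.2, g2.1, g2.2, g3.1, g3.2, this.1, this.2]
  have P2 : -((20 * b ^ 3) * |xx * z|) ≤ (xx * z) * (-(δ ^ 2 * h12) + (3/2) * (δ ^ 2 * (f1 + f2 - f3 - f4))
      - (3/2) * (o1 - o2)) := by
    apply low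
    have a1 := abs_le.mp (mul_bd hd2' hh12)
    have a2 : |f1 + f2 - f3 - f4| ≤ 44/10 * b ^ 2 := by
      rw [abs_le] at *
      constructor <;> linarith only [hf1, hf2, hf3, hf4, hf1.1, hf1.2, hf2.1, hf2.2, hf3.1, hf3.2, hf4.1, hf4.2]
    have a3 := abs_le.mp (mul_bd hd2' a2)
    have a4 := abs_le.mp ho1
    have a5 := abs_le.mp ho2
    rw [abs_le]
    constructor <;> linarith only [hb, hB2, hB1, a1, a3, a4, a5, a1.1, a1.2, a3.1, a3.2, a4.1, a4.2, a5.1, a5.2]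
  have P3 : -((4 * b ^ 3) * |δ * z * m1|) ≤ (δ * z * m1) * (3 * d1) := by
    apply low
    have := abs_le.mp hd1
    rw [abs_le]; constructor <;> linarith only [hb, hB2, hB1, this, this.1, this.2]
  have P3' : -((4 * b ^ 3) * |δ * z * m2|) ≤ (δ * z * m2) * (3 * d2) := by
    apply low
    have := abs_le.mp hd2
    rw [abs_le]; constructor <;> linarith only [hb, hB2, hB1, this, this.1, this.2]
  have P4 : -((4 * b ^ 3) * |δ ^ 3 * xx * m1|) ≤ (δ ^ 3 * xx * m1) * ((3/2) * e1 + k1) := by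
    apply low
    have a1 := abs_le.mp he1
    have a2 := abs_le.mp hk1
    rw [abs_le]; constructor <;> linarith only [hb, hB2, hB1, a1, a2, a1.1, a1.2, a2.1, a2.2]
  have P4' : -((4 * b ^ 3) * |δ ^ 3 * xx * m2|) ≤ (δ ^ 3 * xx * m2) * (-(3/2) * e2 + k2) := by
    apply low
    have a1 := abs_le.mp he2
    have a2 := abs_le.mp hk2
    rw [abs_le]; constructor <;> linarith only [hb, hB2, hB1, a1, a2, a1.1, a1.2, a2.1, a2.2]
  have P5 : -((1 * b ^ 3) * |δ ^ 2 * xx ^ 2|) ≤ (δ ^ 2 * xx ^ 2) * (-(3/4) * mw) := by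
    apply low
    have a1 := abs_le.mp hmw
    rw [abs_le]; constructor <;> linarith only [hb, hB2, hB1, a1, a1.1, a1.2]
  have P6 : (1/4) * ((δ ^ 2)⁻¹ * z ^ 2) ≤ (mU * mT - mUT ^ 2) * ((δ ^ 2)⁻¹ * z ^ 2) :=
    mul_le_mul_of_nonneg_right hmain (by positivity)
  have n0 := mul_nonneg hβ.le (abs_nonneg (δ ^ 2 * xx ^ 2))
  have n1 := mul_nonneg hβ.le (abs_nonneg (xx * z))
  have n2 := mul_nonneg hβ.le (abs_nonneg (δ * z * m1))
  have n3 := mul_nonneg hβ.le (abs_nonneg (δ * z * m2))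
  have n4 := mul_nonneg hβ.le (abs_nonneg (z ^ 2))
  have n5 := mul_nonneg hβ.le (abs_nonneg (δ ^ 3 * xx * m1))
  have n6 := mul_nonneg hβ.le (abs_nonneg (δ ^ 3 * xx * m2))
  have n7 := mul_nonneg hβ.le (abs_nonneg (δ ^ 4 * m1 ^ 2))
  have n8 := mul_nonneg hβ.le (abs_nonneg (δ ^ 4 * m2 ^ 2))
  rw [Er_abs hδ]
  linarith only [P1, P2, P3, P3', P4, P4', P5, P6, n0, n1, n2, n3, n4, n5, n6, n7, n8, P1, P2, P3, P3', P4, P4', P5, P6]

end Pool.Agent.Helper60.MB
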