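import Pool.Agent.Helper60.MB.P4a0
import Pool.Agent.Helper60.MB.P4r

/-!
# MB-4a: the lower bound of the explicit part of the curvature formula
-/

open Filter Metric Module Set
open scoped Topology ContDiff RealInnerProductSpace Manifold

set_option maxSynthPendingDepth 3

namespace Pool.Agent.Helper60.MB
open Pool.Agent.Helper20.PC Pool.Agent.Helper20.HP Pool.Agent.Helper20.M8 Pool.Agent.Helper20.MB

/-! ### the expansion -/

section
variable {V Y : Type*} [NormedAddCommGroup V] [NormedSpace ℝ V] [FiniteDimensional ℝ V]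
  [NormedAddCommGroup Y] [NormedSpace ℝ Y] [FiniteDimensional ℝ Y]
  {h : V → V →L[ℝ] V →L[ℝ] ℝ} {m : V → Y →L[ℝ] Y →L[ℝ] ℝ}
  {S : V → Y →L[ℝ] Y →L[ℝ] Y →L[ℝ] Y →L[ℝ] ℝ} {A : V → V →L[ℝ] Y →L[ℝ] Y} {x : V} {y : Y}

omit [FiniteDimensional ℝ Y] in
lemma FN_expand (hh : MetAt h x) {δ : ℝ} (hδ : δ ≠ 0) (X Z : V) (U T : Y) (ca sa cb sb : ℝ) :
    FN h m S A δ x y (ca • X) ((sa / δ) • U) (cb • Z) ((sb / δ) • T)
      = num h x X Z * (ca * cb) ^ 2 + (δ ^ 2)⁻¹ * (sa * sb) ^ 2 * (m x U U * m x T T - m x U T ^ 2)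
      - 2 * (sa * sb) ^ 2 * (m x U U * S x y T y T + m x T T * S x y U y U - 2 * m x U T * S x y U y T)
      + (1/2) * δ ^ 2 * ((ca * sb) ^ 2 * hS4 h S x X X y T y T + (sa * cb) ^ 2 * hS4 h S x Z Z y U y U)
      - δ ^ 2 * (ca * cb) * (sa * sb) * hS4 h S x X Z y U y T
      + 3 * δ * (sa * sb) * ((ca * sb) * dS4 S x X U T y T + (sa * cb) * dS4 S x Z T U y U)
      + 3 * (sa * sb) ^ 2 * S x U T U T
      + (3/2) * δ ^ 3 * (ca * cb) * ((ca * sb) * dS4 S x X y (OmV A x X Z y) y T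
        - (sa * cb) * dS4 S x Z y (OmV A x X Z y) y U)
      + (3/2) * δ ^ 2 * (ca * cb) * (sa * sb) * (S x U (OmV A x X Z y) y T + S x y (OmV A x X Z y) U T
        - S x T (OmV A x X Z y) y U - S x y (OmV A x X Z y) T U)
      - (3/4) * δ ^ 2 * (ca * cb) ^ 2 * MM m S δ x y (OmV A x X Z y) (OmV A x X Z y)
      - δ * (ca * cb) * (ca * sb) * (m x (DOmV h A x X X Z y) T - δ ^ 2 * S x y (DOmV h A x X X Z y) y T)
      - δ * (ca * cb) * (sa * cb) * (m x (DOmV h A x Z Z X y) U - δ ^ 2 * S x y (DOmV h A x Z Z X y) y U)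
      - (3/2) * (ca * cb) * (sa * sb) * (MM m S δ x y (OmV A x X Z U) T
        - MM m S δ x y (OmV A x X Z T) U) := by
  have hn : num h x (ca • X) (cb • Z) = (ca * cb) ^ 2 * num h x X Z := by
    have := Pool.Agent.Helper93.HP.num_comb hh ca 0 0 cb X Z
    simpa using this
  simp only [FN, MM, hn, OmV_smul, DOmV_smul hh, hS4_s hh, dS4_s0, dS4_s1, dS4_s2, dS4_s4,
    map_smul, _root_.smul_apply, smul_eq_mul]
  field_simp
  ring

-- MB-4a
theorem FN_lower (H : NG h m S A x) {b δ : ℝ} (hb : BdN h m S A x b) {X Z : V} {U T : Y}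
    {ca sa cb sb : ℝ} (F : Fr h m S δ b x y X Z U T ca sa cb sb) :
    num h x X Z * (ca * cb) ^ 2 + (1/4) * (δ ^ 2)⁻¹ * (sa * sb) ^ 2
      + δ * (ca * cb) * ((ca * sb) * (- m x (DOmV h A x X X Z y) T)
        + (sa * cb) * (- m x (DOmV h A x Z Z X y) U))
      + δ ^ 2 * ((ca * sb) ^ 2 * ((1/2) * hS4 h S x X X y T y T)
        + (sa * cb) ^ 2 * ((1/2) * hS4 h S x Z Z y U y U))
      - 100 * b ^ 3 * Er δ (ca * cb) (sa * sb) (ca * sb) (sa * cb)
      ≤ FN h m S A δ x y (ca • X) ((sa / δ) • U) (cb • Z) ((sb / δ) • T) := by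
  have hδ := F.δ0
  have hpm := H.hm.pos.self_of_nhds
  have hsm := H.hm.symm.self_of_nhds
  have hph := H.hh.pos.self_of_nhds
  have hb1 := hb.one
  have hb0 : 0 < b := lt_of_lt_of_le one_pos hb1
  have hb2 : b ≤ b ^ 2 := le_self_pow₀ hb1 (by norm_num)
  have ny : nrm (m x) y = 1 := nrm_one F.yy
  have nX : nrm (h x) X = 1 := nrm_one F.XX
  have nZ : nrm (h x) Z = 1 := nrm_one F.ZZ
  have nU := nrmU_le H hb F.δb F.yy F.UU
  have nT := nrmU_le H hb F.δb F.yy F.TT
  have nU0 := nrm_nonneg (m x) U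
  have nT0 := nrm_nonneg (m x) T
  have hM := fun a c => MM_bd H hb F.δb F.yy (a := a) (c := c)
  obtain ⟨w, hw⟩ : ∃ w, w = OmV A x X Z y := ⟨_, rfl⟩
  have nw : nrm (m x) w ≤ b := by
    have := Om_bd H hb X Z y
    rw [nX, nZ, ny] at this
    rw [hw]; linarith only [this]
  have nw0 := nrm_nonneg (m x) w
  have nOU : nrm (m x) (OmV A x X Z U) ≤ 101/100 * b := by
    have := Om_bd H hb X Z U
    rw [nX, nZ] at this
    have h2 : b * 1 * 1 * nrm (m x) U ≤ b * 1 * 1 * (101/100) := by gcongr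
    linarith
  have nOT : nrm (m x) (OmV A x X Z T) ≤ 101/100 * b := by
    have := Om_bd H hb X Z T
    rw [nX, nZ] at this
    have h2 : b * 1 * 1 * nrm (m x) T ≤ b * 1 * 1 * (101/100) := by gcongr
    linarith only [this, h2]
  have nOU0 := nrm_nonneg (m x) (OmV A x X Z U)
  have nOT0 := nrm_nonneg (m x) (OmV A x X Z T)
  have nD1 : nrm (m x) (DOmV h A x X X Z y) ≤ b := by
    refine nrm_le hpm hb0.le ?_
    have := (le_abs_self _).trans (hb.hdOm X Z (DOmV h A x X X Z y) y)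
    rw [nX, nZ, ny] at this
    linarith only [this]
  have nD2 : nrm (m x) (DOmV h A x Z Z X y) ≤ b := by
    refine nrm_le hpm hb0.le ?_
    have := (le_abs_self _).trans (hb.hdOm Z X (DOmV h A x Z Z X y) y)
    rw [nX, nZ, ny] at this
    linarith only [this]
  have nD10 := nrm_nonneg (m x) (DOmV h A x X X Z y)
  have nD20 := nrm_nonneg (m x) (DOmV h A x Z Z X y)
  -- general bound of a product of four norms
  have pr : ∀ {t : ℝ} {n1 n2 n3 n4 c1 c2 c3 c4 : ℝ}, |t| ≤ b * n1 * n2 * n3 * n4 → 0 ≤ n1 → 0 ≤ n2 →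
      0 ≤ n3 → 0 ≤ n4 → n1 ≤ c1 → n2 ≤ c2 → n3 ≤ c3 → n4 ≤ c4 → |t| ≤ b * c1 * c2 * c3 * c4 := by
    intro t n1 n2 n3 n4 c1 c2 c3 c4 ht a1 a2 a3 a4 q1 q2 q3 q4
    have r1 : 0 ≤ c1 := a1.trans q1
    have r2 : 0 ≤ c2 := a2.trans q2
    have r3 : 0 ≤ c3 := a3.trans q3
    refine ht.trans ?_
    gcongr
  have one0 : (0 : ℝ) ≤ 1 := zero_le_one
  have S0 : ∀ p q r s : Y, |S x p q r s| ≤ b * nrm (m x) p * nrm (m x) q * nrm (m x) r * nrm (m x) s :=
    hb.hS0
  have S1X : ∀ p q r s : Y, |dS4 S x X p q r s|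
      ≤ b * nrm (m x) p * nrm (m x) q * nrm (m x) r * nrm (m x) s := by
    intro p q r s
    have := hb.hS1 X p q r s
    rw [nX] at this
    linarith only [this]
  have S1Z : ∀ p q r s : Y, |dS4 S x Z p q r s|
      ≤ b * nrm (m x) p * nrm (m x) q * nrm (m x) r * nrm (m x) s := by
    intro p q r s
    have := hb.hS1 Z p q r s
    rw [nZ] at this
    linarith only [this]
  have bsU : |S x y U y U| ≤ 11/10 * b := by
    have := pr (S0 y U y U) (by rw [ny]; exact one0) nU0 (by rw [ny]; exact one0) nU0 ny.le nU ny.le nU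
    linarith only [hb1, this]
  have bsT : |S x y T y T| ≤ 11/10 * b := by
    have := pr (S0 y T y T) (by rw [ny]; exact one0) nT0 (by rw [ny]; exact one0) nT0 ny.le nT ny.le nT
    linarith only [hb1, this]
  have bsUT : |S x y U y T| ≤ 11/10 * b := by
    have := pr (S0 y U y T) (by rw [ny]; exact one0) nU0 (by rw [ny]; exact one0) nT0 ny.le nU ny.le nT
    linarith only [hb1, this]
  have bh12 : |hS4 h S x X Z y U y T| ≤ 22/10 * b := by
    have e := hS4_polar (h := h) (S := S) H.hh H.hS X Z y U y T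
    have nXZ : nrm (h x) (X + Z) ^ 2 = 2 := by
      rw [nrm_sq hph]
      have s := H.hh.symm.self_of_nhds Z X
      simp only [map_add, _root_.add_apply, F.XX, F.ZZ, F.XZ, s]
      norm_num
    have a1 := hb.hS2 (X + Z) y U y T
    have a2 := hb.hS2 X y U y T
    have a3 := hb.hS2 Z y U y T
    rw [nXZ, ny] at a1
    rw [nX, ny] at a2
    rw [nZ, ny] at a3
    have UT : nrm (m x) U * nrm (m x) T ≤ 101/100 * (101/100) := by gcongr
    have UTb : b * (nrm (m x) U * nrm (m x) T) ≤ b * (101/100 * (101/100)) := by gcongr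
    have e1 : b * 2 * 1 * nrm (m x) U * 1 * nrm (m x) T = 2 * (b * (nrm (m x) U * nrm (m x) T)) := by ring
    have e2 : b * 1 ^ 2 * 1 * nrm (m x) U * 1 * nrm (m x) T = b * (nrm (m x) U * nrm (m x) T) := by ring
    rw [e1] at a1
    rw [e2] at a2 a3
    have c1 := abs_le.mp a1
    have c2 := abs_le.mp a2
    have c3 := abs_le.mp a3
    rw [abs_le]
    constructor <;> linarith only [hb1, e, UTb, c1, c2, c3, c1.1, c1.2, c2.1, c2.2, c3.1, c3.2]
  have bd1 : |dS4 S x X U T y T| ≤ 11/10 * b := by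
    have := pr (S1X U T y T) nU0 nT0 (by rw [ny]; exact one0) nT0 nU nT ny.le nT
    linarith only [hb1, this]
  have bd2 : |dS4 S x Z T U y U| ≤ 11/10 * b := by
    have := pr (S1Z T U y U) nT0 nU0 (by rw [ny]; exact one0) nU0 nT nU ny.le nU
    linarith only [hb1, this]
  have bs0 : |S x U T U T| ≤ 11/10 * b := by
    have := pr (S0 U T U T) nU0 nT0 nU0 nT0 nU nT nU nT
    linarith only [hb1, this]
  have be1 : |dS4 S x X y w y T| ≤ 11/10 * b ^ 2 := by
    have := pr (S1X y w y T) (by rw [ny]; exact one0) nw0 (by rw [ny]; exact one0) nT0 ny.le nw ny.le nT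
    linarith only [hb1, hb2, this]
  have be2 : |dS4 S x Z y w y U| ≤ 11/10 * b ^ 2 := by
    have := pr (S1Z y w y U) (by rw [ny]; exact one0) nw0 (by rw [ny]; exact one0) nU0 ny.le nw ny.le nU
    linarith only [hb1, hb2, this]
  have bf1 : |S x U w y T| ≤ 11/10 * b ^ 2 := by
    have := pr (S0 U w y T) nU0 nw0 (by rw [ny]; exact one0) nT0 nU nw ny.le nT
    linarith only [hb1, hb2, this]
  have bf2 : |S x y w U T| ≤ 11/10 * b ^ 2 := by
    have := pr (S0 y w U T) (by rw [ny]; exact one0) nw0 nU0 nT0 ny.le nw nU nT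
    linarith only [hb1, hb2, this]
  have bf3 : |S x T w y U| ≤ 11/10 * b ^ 2 := by
    have := pr (S0 T w y U) nT0 nw0 (by rw [ny]; exact one0) nU0 nT nw ny.le nU
    linarith only [hb1, hb2, this]
  have bf4 : |S x y w T U| ≤ 11/10 * b ^ 2 := by
    have := pr (S0 y w T U) (by rw [ny]; exact one0) nw0 nT0 nU0 ny.le nw nT nU
    linarith only [hb1, hb2, this]
  have bmw : |MM m S δ x y w w| ≤ 11/10 * b ^ 2 := by
    have h1 := hM w w
    have : 101/100 * nrm (m x) w * nrm (m x) w ≤ 101/100 * b * b := by gcongr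
    linarith only [hb1, hb2, h1, this]
  have bk1 : |S x y (DOmV h A x X X Z y) y T| ≤ 11/10 * b ^ 2 := by
    have := pr (S0 y (DOmV h A x X X Z y) y T) (by rw [ny]; exact one0) nD10 (by rw [ny]; exact one0) nT0
      ny.le nD1 ny.le nT
    linarith only [hb1, hb2, this]
  have bk2 : |S x y (DOmV h A x Z Z X y) y U| ≤ 11/10 * b ^ 2 := by
    have := pr (S0 y (DOmV h A x Z Z X y) y U) (by rw [ny]; exact one0) nD20 (by rw [ny]; exact one0) nU0
      ny.le nD2 ny.le nU
    linarith only [hb1, hb2, this]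
  have bo1 : |MM m S δ x y (OmV A x X Z U) T| ≤ 11/10 * b := by
    have h1 := hM (OmV A x X Z U) T
    have : 101/100 * nrm (m x) (OmV A x X Z U) * nrm (m x) T ≤ 101/100 * (101/100 * b) * (101/100) := by
      gcongr
    linarith only [hb1, h1, this]
  have bo2 : |MM m S δ x y (OmV A x X Z T) U| ≤ 11/10 * b := by
    have h1 := hM (OmV A x X Z T) U
    have : 101/100 * nrm (m x) (OmV A x X Z T) * nrm (m x) U ≤ 101/100 * (101/100 * b) * (101/100) := by
      gcongr
    linarith only [hb1, h1, this]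
  have e1 : m x U U = 1 + δ ^ 2 * S x y U y U := by
    have := F.UU; unfold MM at this; linarith only [this]
  have e2 : m x T T = 1 + δ ^ 2 * S x y T y T := by
    have := F.TT; unfold MM at this; linarith only [this]
  have e3 : m x U T = δ ^ 2 * S x y U y T := by
    have := F.UT; unfold MM at this; linarith only [this]
  have key := real4 (K := num h x X Z) (xx := ca * cb) (z := sa * sb) (m1 := ca * sb) (m2 := sa * cb)
    (h1 := hS4 h S x X X y T y T) (h2 := hS4 h S x Z Z y U y U)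
    (l1 := m x (DOmV h A x X X Z y) T) (l2 := m x (DOmV h A x Z Z X y) U)
    hδ F.δ1 hb1 F.δb e1 e2 e3 bsU bsT bsUT bh12 bd1 bd2 bs0 be1 be2 bf1 bf2 bf3 bf4 bmw bk1 bk2 bo1 bo2
  rw [FN_expand H.hh hδ.ne', ← hw]
  exact key

end

end Pool.Agent.Helper60.MB
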