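import Pool.Agent.Helper60.MB.Common

/-!
# MB-4a: the lower bound of the explicit part of the curvature formula
-/

open Filter Metric Module Set
open scoped Topology ContDiff RealInnerProductSpace Manifold

set_option maxSynthPendingDepth 3

namespace Pool.Agent.Helper60.MB
open Pool.Agent.Helper20.PC Pool.Agent.Helper20.HP Pool.Agent.Helper20.M8 Pool.Agent.Helper20.MB

/-! ### the bounds -/

section
variable {V Y : Type*} [NormedAddCommGroup V] [NormedSpace ℝ V] [FiniteDimensional ℝ V]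
  [NormedAddCommGroup Y] [NormedSpace ℝ Y] [FiniteDimensional ℝ Y]
  {h : V → V →L[ℝ] V →L[ℝ] ℝ} {m : V → Y →L[ℝ] Y →L[ℝ] ℝ}
  {S : V → Y →L[ℝ] Y →L[ℝ] Y →L[ℝ] Y →L[ℝ] ℝ} {A : V → V →L[ℝ] Y →L[ℝ] Y} {x : V} {y : Y}

omit [FiniteDimensional ℝ Y] [FiniteDimensional ℝ V] in
lemma nrmU_le (H : NG h m S A x) {b δ : ℝ} (hb : BdN h m S A x b) (hδb : δ ^ 2 * b ≤ 1 / 100)
    (yy : m x y y = 1) {U : Y} (hU : MM m S δ x y U U = 1) : nrm (m x) U ≤ 101/100 := by
  have hp := H.hm.pos.self_of_nhds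
  have h1 := (abs_le.mp (hb.hS0 y U y U)).2
  rw [nrm_one yy] at h1
  have h2 : m x U U = 1 + δ ^ 2 * S x y U y U := by
    unfold MM at hU; linarith only [hU]
  rw [← nrm_sq hp] at h2
  have h3 : δ ^ 2 * S x y U y U ≤ δ ^ 2 * (b * 1 * nrm (m x) U * 1 * nrm (m x) U) := by
    have := sq_nonneg δ
    gcongr
  have h4 : δ ^ 2 * (b * 1 * nrm (m x) U * 1 * nrm (m x) U) = (δ ^ 2 * b) * nrm (m x) U ^ 2 := by ring
  have h5 : (δ ^ 2 * b) * nrm (m x) U ^ 2 ≤ 1/100 * nrm (m x) U ^ 2 := by gcongr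
  have h6 : nrm (m x) U ^ 2 ≤ (101/100) ^ 2 := by norm_num; linarith
  exact le_of_sq_le_sq h6 (by norm_num)

omit [FiniteDimensional ℝ Y] [FiniteDimensional ℝ V] in
lemma MM_bd (H : NG h m S A x) {b δ : ℝ} (hb : BdN h m S A x b) (hδb : δ ^ 2 * b ≤ 1 / 100)
    (yy : m x y y = 1) (a c : Y) : |MM m S δ x y a c| ≤ 101/100 * nrm (m x) a * nrm (m x) c := by
  have hp := H.hm.pos.self_of_nhds
  have hs := H.hm.symm.self_of_nhds
  have h1 := nrm_cs hs hp a c
  have na := nrm_nonneg (m x) a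
  have nc := nrm_nonneg (m x) c
  have h0 := hb.hS0 y a y c
  rw [nrm_one yy] at h0
  have h2 : |δ ^ 2 * S x y a y c| ≤ 1/100 * (nrm (m x) a * nrm (m x) c) := by
    rw [abs_mul, abs_of_nonneg (sq_nonneg δ)]
    calc δ ^ 2 * |S x y a y c| ≤ δ ^ 2 * (b * 1 * nrm (m x) a * 1 * nrm (m x) c) := by gcongr
      _ = (δ ^ 2 * b) * (nrm (m x) a * nrm (m x) c) := by ring
      _ ≤ 1/100 * (nrm (m x) a * nrm (m x) c) := by gcongr
  have h3 := abs_sub (m x a c) (δ ^ 2 * S x y a y c)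
  unfold MM
  linarith

omit [FiniteDimensional ℝ Y] [FiniteDimensional ℝ V] in
/-- the norm of `Ω(X,Z) q`. -/
lemma Om_bd (H : NG h m S A x) {b : ℝ} (hb : BdN h m S A x b) (X Z : V) (q : Y) :
    nrm (m x) (OmV A x X Z q) ≤ b * nrm (h x) X * nrm (h x) Z * nrm (m x) q := by
  have hp := H.hm.pos.self_of_nhds
  have b0 : 0 ≤ b := zero_le_one.trans hb.one
  have nX := nrm_nonneg (h x) X
  have nZ := nrm_nonneg (h x) Z
  have nq := nrm_nonneg (m x) q
  refine nrm_le hp (by positivity) ?_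
  have := (le_abs_self _).trans (hb.hOm X Z (OmV A x X Z q) q)
  linarith only [this]

end

end Pool.Agent.Helper60.MB
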