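import Pool.Agent.Helper60.MB.P4a0

/-!
# MB-4b: the horizontal part of the difference tensor
-/

open Filter Metric Module Set
open scoped Topology ContDiff RealInnerProductSpace Manifold

set_option maxSynthPendingDepth 3

namespace Pool.Agent.Helper60.MB
open Pool.Agent.Helper20.PC Pool.Agent.Helper20.HP Pool.Agent.Helper20.M8 Pool.Agent.Helper20.MB

/-- the purely real estimate. `a1, a2` are the norms of `t1, t2`, `g` the norm of
`(δ/2)(m1 t1 + m2 t2)`, `e` the norm of the error. -/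
lemma real4b {δ b xx z m1 m2 ca sa cb sb : ℝ} (hδ : 0 < δ) (hδ1 : δ ≤ 1) (hb : 1 ≤ b)
    (exx : xx = ca * cb) (ez : z = sa * sb) (em1 : m1 = ca * sb) (em2 : m2 = sa * cb)
    {h11 h22 h12 g e tt uv nu nv : ℝ}
    (h12b : |h12| ≤ 2 * b ^ 2) (gb : g ≤ δ * (|m1| + |m2|) * b) (e0 : 0 ≤ e)
    (eb : e ≤ δ ^ 2 * |z| * b + 2 * δ ^ 3 * (|m1| + |m2|) * b ^ 2)
    (ht : δ ^ 2 / 4 * (m1 ^ 2 * h11 + m2 ^ 2 * h22 + 2 * (m1 * m2) * h12) - 2 * (g * e) ≤ tt)
    (nv0 : 0 ≤ nv) (nub : nu ≤ δ ^ 2 * sa ^ 2 * b + 2 * δ * |ca * sa| * b)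
    (nvb : nv ≤ δ ^ 2 * sb ^ 2 * b + 2 * δ * |cb * sb| * b) (huv : uv ≤ nu * nv) :
    δ ^ 2 * (m1 ^ 2 * ((1/4) * h11) + m2 ^ 2 * ((1/4) * h22)) - 100 * b ^ 3 * Er δ xx z m1 m2
      ≤ tt - uv := by
  have hb0 : 0 < b := lt_of_lt_of_le one_pos hb
  have hB2 : b ^ 2 ≤ b ^ 3 := pow_le_pow_right₀ hb (by norm_num)
  have hβ : 0 < b ^ 3 := pow_pos hb0 3
  have hd20 : 0 < δ ^ 2 := pow_pos hδ 2
  have hd2 : δ ^ 2 ≤ 1 := pow_le_one₀ hδ.le hδ1
  have hd4 : δ ^ 4 ≤ 1 := pow_le_one₀ hδ.le hδ1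
  have hmm : m1 * m2 = xx * z := by rw [em1, em2, exx, ez]; ring
  set q1 := |m1| with hq1
  set q2 := |m2| with hq2
  set qz := |z| with hqz
  set qx := |xx| with hqx
  have q10 : 0 ≤ q1 := abs_nonneg _
  have q20 : 0 ≤ q2 := abs_nonneg _
  have qz0 : 0 ≤ qz := abs_nonneg _
  have qx0 : 0 ≤ qx := abs_nonneg _
  have s1 : q1 ^ 2 = m1 ^ 2 := sq_abs m1
  have s2 : q2 ^ 2 = m2 ^ 2 := sq_abs m2
  have sz : qz ^ 2 = z ^ 2 := sq_abs z
  have hEr : Er δ xx z m1 m2 = δ ^ 2 * xx ^ 2 + qz ^ 2 + qx * qz + δ * qz * (q1 + q2)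
      + δ ^ 3 * qx * (q1 + q2) + δ ^ 4 * (q1 ^ 2 + q2 ^ 2) := by
    rw [Er, abs_mul, s1, s2, sz]
  -- cross term
  have P1 : -(b ^ 3 * (qx * qz)) ≤ δ ^ 2 / 4 * (2 * (m1 * m2) * h12) := by
    have h1 : |δ ^ 2 / 4 * (2 * (m1 * m2) * h12)| ≤ b ^ 3 * (qx * qz) := by
      rw [hmm]
      have e1 : |δ ^ 2 / 4 * (2 * (xx * z) * h12)| = δ ^ 2 * ((1/2) * (qx * qz) * |h12|) := by
        simp only [abs_mul, abs_div, abs_of_pos hd20]
        norm_num
        ring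
      rw [e1]
      have h3 : (1/2) * (qx * qz) * |h12| ≤ (1/2) * (qx * qz) * (2 * b ^ 2) := by gcongr
      have h4 : 0 ≤ (1/2) * (qx * qz) * (2 * b ^ 2) := by positivity
      have h5 : 0 ≤ qx * qz := by positivity
      have h6 : (qx * qz) * b ^ 2 ≤ (qx * qz) * b ^ 3 := by gcongr
      calc δ ^ 2 * ((1/2) * (qx * qz) * |h12|) ≤ δ ^ 2 * ((1/2) * (qx * qz) * (2 * b ^ 2)) := by gcongr
        _ ≤ 1 * ((1/2) * (qx * qz) * (2 * b ^ 2)) := by gcongr
        _ ≤ b ^ 3 * (qx * qz) := by linarith only [h6]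
    exact (abs_le.mp h1).1
  -- product of norms
  have P2 : g * e ≤ 4 * b ^ 3 * (δ * qz * (q1 + q2)) + 4 * b ^ 3 * (δ ^ 4 * (q1 ^ 2 + q2 ^ 2)) := by
    have h1 : g * e ≤ (δ * (q1 + q2) * b) * (δ ^ 2 * qz * b + 2 * δ ^ 3 * (q1 + q2) * b ^ 2) :=
      mul_le_mul gb eb e0 (by positivity)
    have e1 : (δ * (q1 + q2) * b) * (δ ^ 2 * qz * b + 2 * δ ^ 3 * (q1 + q2) * b ^ 2)
        = δ ^ 2 * (b ^ 2 * (δ * qz * (q1 + q2))) + 2 * b ^ 3 * (δ ^ 4 * (q1 + q2) ^ 2) := by ring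
    have h2 : δ ^ 2 * (b ^ 2 * (δ * qz * (q1 + q2))) ≤ 1 * (b ^ 3 * (δ * qz * (q1 + q2))) := by
      gcongr
    have h3 : (q1 + q2) ^ 2 ≤ 2 * (q1 ^ 2 + q2 ^ 2) := by linarith only [sq_nonneg (q1 - q2)]
    have h4 : 2 * b ^ 3 * (δ ^ 4 * (q1 + q2) ^ 2) ≤ 2 * b ^ 3 * (δ ^ 4 * (2 * (q1 ^ 2 + q2 ^ 2))) := by
      gcongr
    have h5 : 0 ≤ b ^ 3 * (δ * qz * (q1 + q2)) := by (clear * - hb hδ; positivity)
    rw [e1] at h1
    linarith only [h1, h2, h4, h5]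
  have P3 : nu * nv ≤ b ^ 3 * qz ^ 2 + 2 * b ^ 3 * (δ * qz * (q1 + q2)) + 4 * b ^ 3 * (qx * qz) := by
    have h1 : nu * nv ≤ (δ ^ 2 * sa ^ 2 * b + 2 * δ * |ca * sa| * b)
        * (δ ^ 2 * sb ^ 2 * b + 2 * δ * |cb * sb| * b) := mul_le_mul nub nvb nv0 (by positivity)
    have e1 : (δ ^ 2 * sa ^ 2 * b + 2 * δ * |ca * sa| * b) * (δ ^ 2 * sb ^ 2 * b + 2 * δ * |cb * sb| * b)
        = δ ^ 4 * (b ^ 2 * qz ^ 2) + 2 * (δ ^ 2 * (b ^ 2 * (δ * qz * (q1 + q2))))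
          + 4 * (δ ^ 2 * (b ^ 2 * (qx * qz))) := by
      rw [hq1, hq2, hqz, hqx, em1, em2, ez, exx]
      simp only [abs_mul]
      rw [← sq_abs sa, ← sq_abs sb]
      ring
    have h2 : δ ^ 4 * (b ^ 2 * qz ^ 2) ≤ 1 * (b ^ 3 * qz ^ 2) := by gcongr
    have h3 : δ ^ 2 * (b ^ 2 * (δ * qz * (q1 + q2))) ≤ 1 * (b ^ 3 * (δ * qz * (q1 + q2))) := by gcongr
    have h4 : δ ^ 2 * (b ^ 2 * (qx * qz)) ≤ 1 * (b ^ 3 * (qx * qz)) := by gcongr
    rw [e1] at h1
    linarith only [h1, h2, h3, h4]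
  have n0 : 0 ≤ b ^ 3 * (δ ^ 2 * xx ^ 2) := by positivity
  have n1 : 0 ≤ b ^ 3 * (qx * qz) := by positivity
  have n2 : 0 ≤ b ^ 3 * (δ * qz * (q1 + q2)) := by (clear * - hb hδ; positivity)
  have n3 : 0 ≤ b ^ 3 * qz ^ 2 := by positivity
  have n4 : 0 ≤ b ^ 3 * (δ ^ 3 * qx * (q1 + q2)) := by (clear * - hb hδ; positivity)
  have n5 : 0 ≤ b ^ 3 * (δ ^ 4 * (q1 ^ 2 + q2 ^ 2)) := by positivity
  rw [hEr]
  linarith only [ht, huv, P1, P2, P3, n0, n1, n2, n3, n4, n5]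

section
variable {V Y : Type*} [NormedAddCommGroup V] [NormedSpace ℝ V] [FiniteDimensional ℝ V]
  [NormedAddCommGroup Y] [NormedSpace ℝ Y] [FiniteDimensional ℝ Y]
  {h : V → V →L[ℝ] V →L[ℝ] ℝ} {m : V → Y →L[ℝ] Y →L[ℝ] ℝ}
  {S : V → Y →L[ℝ] Y →L[ℝ] Y →L[ℝ] Y →L[ℝ] ℝ} {A : V → V →L[ℝ] Y →L[ℝ] Y} {x : V} {y : Y}

-- MB-4b
theorem hor_lower (H : NG h m S A x) {b δ : ℝ} (hb : BdN h m S A x b) {X Z : V} {U T : Y}
    {ca sa cb sb : ℝ} (F : Fr h m S δ b x y X Z U T ca sa cb sb) {th thu thv t1 t2 : V}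
    (h1 : IsHF h m S A δ x y (ca • X) ((sa / δ) • U) (cb • Z) ((sb / δ) • T) th)
    (h2 : IsHF h m S A δ x y (ca • X) ((sa / δ) • U) (ca • X) ((sa / δ) • U) thu)
    (h3 : IsHF h m S A δ x y (cb • Z) ((sb / δ) • T) (cb • Z) ((sb / δ) • T) thv)
    (h4 : ∀ ξ, h x t1 ξ = m x T (OmV A x X ξ y)) (h5 : ∀ ξ, h x t2 ξ = m x U (OmV A x Z ξ y)) :
    δ ^ 2 * ((ca * sb) ^ 2 * ((1/4) * h x t1 t1) + (sa * cb) ^ 2 * ((1/4) * h x t2 t2))
      - 100 * b ^ 3 * Er δ (ca * cb) (sa * sb) (ca * sb) (sa * cb)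
      ≤ h x th th - h x thu thv := by
  have hδ := F.δ0
  have hδ1 := F.δ1
  have hpm := H.hm.pos.self_of_nhds
  have hsm := H.hm.symm.self_of_nhds
  have hph := H.hh.pos.self_of_nhds
  have hsh := H.hh.symm.self_of_nhds
  have hb1 := hb.one
  have hb0 : 0 < b := lt_of_lt_of_le one_pos hb1
  have hb2 : b ≤ b ^ 2 := le_self_pow₀ hb1 (by norm_num)
  have hd20 : 0 < δ ^ 2 := pow_pos hδ 2
  have hd2 : δ ^ 2 ≤ 1 := pow_le_one₀ hδ.le hδ1
  have ny : nrm (m x) y = 1 := nrm_one F.yy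
  have nX : nrm (h x) X = 1 := nrm_one F.XX
  have nZ : nrm (h x) Z = 1 := nrm_one F.ZZ
  have nU := nrmU_le H hb F.δb F.yy F.UU
  have nT := nrmU_le H hb F.δb F.yy F.TT
  have nU0 := nrm_nonneg (m x) U
  have nT0 := nrm_nonneg (m x) T
  have hM := fun a c => MM_bd H hb F.δb F.yy (a := a) (c := c)
  -- norm of `Ω(X, ξ) y`
  have nOX : ∀ ξ, nrm (m x) (OmV A x X ξ y) ≤ b * nrm (h x) ξ := by
    intro ξ
    have := Om_bd H hb X ξ y
    rw [nX, ny] at this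
    linarith only [this]
  have nOZ : ∀ ξ, nrm (m x) (OmV A x Z ξ y) ≤ b * nrm (h x) ξ := by
    intro ξ
    have := Om_bd H hb Z ξ y
    rw [nZ, ny] at this
    linarith
  -- norms of `t1`, `t2`
  have nt1 : nrm (h x) t1 ≤ 101/100 * b := by
    refine nrm_le hph (by positivity) ?_
    have e := hb.hOm X t1 T y
    rw [← h4 t1, nX, ny] at e
    have e2 : b * 1 * nrm (h x) t1 * nrm (m x) T * 1 ≤ b * 1 * nrm (h x) t1 * (101/100) * 1 := by
      have := nrm_nonneg (h x) t1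
      gcongr
    have := (le_abs_self _).trans e
    linarith only [e2, this]
  have nt2 : nrm (h x) t2 ≤ 101/100 * b := by
    refine nrm_le hph (by positivity) ?_
    have e := hb.hOm Z t2 U y
    rw [← h5 t2, nZ, ny] at e
    have e2 : b * 1 * nrm (h x) t2 * nrm (m x) U * 1 ≤ b * 1 * nrm (h x) t2 * (101/100) * 1 := by
      have := nrm_nonneg (h x) t2
      gcongr
    have := (le_abs_self _).trans e
    linarith
  have nt10 := nrm_nonneg (h x) t1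
  have nt20 := nrm_nonneg (h x) t2
  have h12b : |h x t1 t2| ≤ 2 * b ^ 2 := by
    have e1 := nrm_cs hsh hph t1 t2
    have e2 : nrm (h x) t1 * nrm (h x) t2 ≤ (101/100 * b) * (101/100 * b) := by gcongr
    linarith only [hb1, hb2, e1, e2]
  -- the main part
  obtain ⟨gv, hgv⟩ : ∃ gv : V, gv = (δ / 2 * (ca * sb)) • t1 + (δ / 2 * (sa * cb)) • t2 := ⟨_, rfl⟩
  obtain ⟨ev, hev⟩ : ∃ ev : V, ev = th - gv := ⟨_, rfl⟩
  have hth : th = gv + ev := by rw [hev]; abel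
  have hgg : h x gv gv = δ ^ 2 / 4 * ((ca * sb) ^ 2 * h x t1 t1 + (sa * cb) ^ 2 * h x t2 t2
      + 2 * ((ca * sb) * (sa * cb)) * h x t1 t2) := by
    rw [hgv]
    simp only [map_add, map_smul, _root_.add_apply, _root_.smul_apply, smul_eq_mul, hsh t2 t1]
    ring
  have hgb : nrm (h x) gv ≤ δ * (|ca * sb| + |sa * cb|) * b := by
    have q1 := abs_nonneg (ca * sb)
    have q2 := abs_nonneg (sa * cb)
    refine abs_le_of_sq_le_sq' ?_ (by positivity) |>.2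
    rw [nrm_sq hph, hgg]
    have a1 : h x t1 t1 ≤ 2 * b ^ 2 := by
      rw [← nrm_sq hph]; nlinarith only [hb1, hb2, nt1, nt10]
    have a2 : h x t2 t2 ≤ 2 * b ^ 2 := by
      rw [← nrm_sq hph]; nlinarith only [hb1, hb2, nt2, nt20]
    have a3 : (ca * sb) * (sa * cb) * h x t1 t2 ≤ |ca * sb| * |sa * cb| * (2 * b ^ 2) := by
      refine (le_abs_self _).trans ?_
      rw [abs_mul, abs_mul]
      gcongr
    have s1 := sq_abs (ca * sb)
    have s2 := sq_abs (sa * cb)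
    have a4 : (ca * sb) ^ 2 * h x t1 t1 ≤ (ca * sb) ^ 2 * (2 * b ^ 2) := by gcongr
    have a5 : (sa * cb) ^ 2 * h x t2 t2 ≤ (sa * cb) ^ 2 * (2 * b ^ 2) := by gcongr
    rw [← s1] at a4 ⊢
    rw [← s2] at a5 ⊢
    have a6 : |ca * sb| ^ 2 * h x t1 t1 + |sa * cb| ^ 2 * h x t2 t2 + 2 * (ca * sb * (sa * cb)) * h x t1 t2
        ≤ 2 * b ^ 2 * (|ca * sb| + |sa * cb|) ^ 2 := by linarith only [a3, a4, a5]
    have a7 : δ ^ 2 / 4 * (|ca * sb| ^ 2 * h x t1 t1 + |sa * cb| ^ 2 * h x t2 t2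
        + 2 * (ca * sb * (sa * cb)) * h x t1 t2)
        ≤ δ ^ 2 / 4 * (2 * b ^ 2 * (|ca * sb| + |sa * cb|) ^ 2) := by gcongr
    have a8 : 0 ≤ δ ^ 2 * (b ^ 2 * (|ca * sb| + |sa * cb|) ^ 2) := by (clear * - hδ hb1; positivity)
    calc _ ≤ _ := a7
      _ ≤ (δ * (|ca * sb| + |sa * cb|) * b) ^ 2 := by nlinarith only []
  -- the error
  have herr : ∀ ξ, h x ev ξ = (1/2) * δ ^ 2 * (sa * sb) * dS4 S x ξ y U y T
      - (1/2) * δ ^ 3 * ((ca * sb) * S x y T y (OmV A x X ξ y) + (sa * cb) * S x y U y (OmV A x Z ξ y)) := by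
    intro ξ
    rw [hev, map_sub, _root_.sub_apply, h1 ξ, hgv]
    simp only [map_add, map_smul, _root_.add_apply, _root_.smul_apply, smul_eq_mul, h4, h5, MM,
      dS4_s2, dS4_s4, OmV_smul_left]
    field_simp
    ring
  have heb : nrm (h x) ev ≤ δ ^ 2 * |sa * sb| * b + 2 * δ ^ 3 * (|ca * sb| + |sa * cb|) * b ^ 2 := by
    refine nrm_le hph (by (clear * - hδ hb1; positivity)) ?_
    rw [herr ev]
    have ne := nrm_nonneg (h x) ev
    have b1 : |dS4 S x ev y U y T| ≤ 2 * b * nrm (h x) ev := by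
      have := hb.hS1 ev y U y T
      rw [ny] at this
      have e1 : b * nrm (h x) ev * 1 * nrm (m x) U * 1 * nrm (m x) T
          ≤ b * nrm (h x) ev * 1 * (101/100) * 1 * (101/100) := by gcongr
      have e2 : 0 ≤ b * nrm (h x) ev := by positivity
      linarith only [this, e1, e2]
    have b2 : |S x y T y (OmV A x X ev y)| ≤ 2 * b ^ 2 * nrm (h x) ev := by
      have := hb.hS0 y T y (OmV A x X ev y)
      rw [ny] at this
      have e1 : b * 1 * nrm (m x) T * 1 * nrm (m x) (OmV A x X ev y)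
          ≤ b * 1 * (101/100) * 1 * (b * nrm (h x) ev) := by
        have := nOX ev
        have nn := nrm_nonneg (m x) (OmV A x X ev y)
        gcongr
      have e2 : 0 ≤ b ^ 2 * nrm (h x) ev := by positivity
      linarith only [this, e1, e2]
    have b3 : |S x y U y (OmV A x Z ev y)| ≤ 2 * b ^ 2 * nrm (h x) ev := by
      have := hb.hS0 y U y (OmV A x Z ev y)
      rw [ny] at this
      have e1 : b * 1 * nrm (m x) U * 1 * nrm (m x) (OmV A x Z ev y)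
          ≤ b * 1 * (101/100) * 1 * (b * nrm (h x) ev) := by
        have := nOZ ev
        have nn := nrm_nonneg (m x) (OmV A x Z ev y)
        gcongr
      have e2 : 0 ≤ b ^ 2 * nrm (h x) ev := by positivity
      linarith only [this, e1, e2]
    have c1 : (sa * sb) * dS4 S x ev y U y T ≤ |sa * sb| * (2 * b * nrm (h x) ev) := by
      refine (le_abs_self _).trans ?_
      rw [abs_mul]; gcongr
    have c2 : -((ca * sb) * S x y T y (OmV A x X ev y)) ≤ |ca * sb| * (2 * b ^ 2 * nrm (h x) ev) := by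
      refine (neg_le_abs _).trans ?_
      rw [abs_mul]; gcongr
    have c3 : -((sa * cb) * S x y U y (OmV A x Z ev y)) ≤ |sa * cb| * (2 * b ^ 2 * nrm (h x) ev) := by
      refine (neg_le_abs _).trans ?_
      rw [abs_mul]; gcongr
    have d1 : (1/2) * δ ^ 2 * ((sa * sb) * dS4 S x ev y U y T)
        ≤ (1/2) * δ ^ 2 * (|sa * sb| * (2 * b * nrm (h x) ev)) := by gcongr
    have d2 : (1/2) * δ ^ 3 * (-((ca * sb) * S x y T y (OmV A x X ev y)))
        ≤ (1/2) * δ ^ 3 * (|ca * sb| * (2 * b ^ 2 * nrm (h x) ev)) := by gcongr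
    have d3 : (1/2) * δ ^ 3 * (-((sa * cb) * S x y U y (OmV A x Z ev y)))
        ≤ (1/2) * δ ^ 3 * (|sa * cb| * (2 * b ^ 2 * nrm (h x) ev)) := by gcongr
    have n1 : 0 ≤ δ ^ 3 * (|ca * sb| * (b ^ 2 * nrm (h x) ev)) := by positivity
    have n2 : 0 ≤ δ ^ 3 * (|sa * cb| * (b ^ 2 * nrm (h x) ev)) := by positivity
    linarith only [d1, d2, d3, n1, n2]
  -- bound of the square
  have hge := nrm_cs hsh hph gv ev
  have htt : δ ^ 2 / 4 * ((ca * sb) ^ 2 * h x t1 t1 + (sa * cb) ^ 2 * h x t2 t2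
      + 2 * ((ca * sb) * (sa * cb)) * h x t1 t2) - 2 * (nrm (h x) gv * nrm (h x) ev) ≤ h x th th := by
    have e1 : h x th th = h x gv gv + 2 * h x gv ev + h x ev ev := by
      rw [hth]
      simp only [map_add, _root_.add_apply, hsh ev gv]
      ring
    have e2 := form_nonneg hph ev
    rw [e1, ← hgg]
    linarith only [e2, hge, (abs_le.mp hge).1]
  -- bounds of `thu`, `thv`
  have hu : nrm (h x) thu ≤ δ ^ 2 * sa ^ 2 * b + 2 * δ * |ca * sa| * b := by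
    refine nrm_le hph (by positivity) ?_
    have ne := nrm_nonneg (h x) thu
    have e0 : h x thu thu = (1/2) * δ ^ 2 * (sa ^ 2 * dS4 S x thu y U y U)
        + δ * ((ca * sa) * MM m S δ x y U (OmV A x X thu y)) := by
      rw [h2 thu]
      simp only [MM, dS4_s2, dS4_s4, OmV_smul_left, map_smul, _root_.smul_apply, smul_eq_mul]
      field_simp
      ring
    rw [e0]
    have b1 : |dS4 S x thu y U y U| ≤ 2 * b * nrm (h x) thu := by
      have := hb.hS1 thu y U y U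
      rw [ny] at this
      have e1 : b * nrm (h x) thu * 1 * nrm (m x) U * 1 * nrm (m x) U
          ≤ b * nrm (h x) thu * 1 * (101/100) * 1 * (101/100) := by gcongr
      have e2 : 0 ≤ b * nrm (h x) thu := by positivity
      linarith only [this, e1, e2]
    have b2 : |MM m S δ x y U (OmV A x X thu y)| ≤ 2 * b * nrm (h x) thu := by
      have := hM U (OmV A x X thu y)
      have e1 : 101/100 * nrm (m x) U * nrm (m x) (OmV A x X thu y)
          ≤ 101/100 * (101/100) * (b * nrm (h x) thu) := by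
        have := nOX thu
        have nn := nrm_nonneg (m x) (OmV A x X thu y)
        gcongr
      have e2 : 0 ≤ b * nrm (h x) thu := by positivity
      linarith only [this, e1, e2]
    have c1 : sa ^ 2 * dS4 S x thu y U y U ≤ sa ^ 2 * (2 * b * nrm (h x) thu) := by
      have := (le_abs_self _).trans b1
      gcongr
    have c2 : (ca * sa) * MM m S δ x y U (OmV A x X thu y) ≤ |ca * sa| * (2 * b * nrm (h x) thu) := by
      refine (le_abs_self _).trans ?_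
      rw [abs_mul]; gcongr
    have d1 : (1/2) * δ ^ 2 * (sa ^ 2 * dS4 S x thu y U y U)
        ≤ (1/2) * δ ^ 2 * (sa ^ 2 * (2 * b * nrm (h x) thu)) := by gcongr
    have d2 : δ * ((ca * sa) * MM m S δ x y U (OmV A x X thu y))
        ≤ δ * (|ca * sa| * (2 * b * nrm (h x) thu)) := by gcongr
    linarith only [d1, d2]
  have hv : nrm (h x) thv ≤ δ ^ 2 * sb ^ 2 * b + 2 * δ * |cb * sb| * b := by
    refine nrm_le hph (by positivity) ?_
    have ne := nrm_nonneg (h x) thv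
    have e0 : h x thv thv = (1/2) * δ ^ 2 * (sb ^ 2 * dS4 S x thv y T y T)
        + δ * ((cb * sb) * MM m S δ x y T (OmV A x Z thv y)) := by
      rw [h3 thv]
      simp only [MM, dS4_s2, dS4_s4, OmV_smul_left, map_smul, _root_.smul_apply, smul_eq_mul]
      field_simp
      ring
    rw [e0]
    have b1 : |dS4 S x thv y T y T| ≤ 2 * b * nrm (h x) thv := by
      have := hb.hS1 thv y T y T
      rw [ny] at this
      have e1 : b * nrm (h x) thv * 1 * nrm (m x) T * 1 * nrm (m x) T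
          ≤ b * nrm (h x) thv * 1 * (101/100) * 1 * (101/100) := by gcongr
      have e2 : 0 ≤ b * nrm (h x) thv := by positivity
      linarith only [this, e1, e2]
    have b2 : |MM m S δ x y T (OmV A x Z thv y)| ≤ 2 * b * nrm (h x) thv := by
      have := hM T (OmV A x Z thv y)
      have e1 : 101/100 * nrm (m x) T * nrm (m x) (OmV A x Z thv y)
          ≤ 101/100 * (101/100) * (b * nrm (h x) thv) := by
        have := nOZ thv
        have nn := nrm_nonneg (m x) (OmV A x Z thv y)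
        gcongr
      have e2 : 0 ≤ b * nrm (h x) thv := by positivity
      linarith only [this, e1, e2]
    have c1 : sb ^ 2 * dS4 S x thv y T y T ≤ sb ^ 2 * (2 * b * nrm (h x) thv) := by
      have := (le_abs_self _).trans b1
      gcongr
    have c2 : (cb * sb) * MM m S δ x y T (OmV A x Z thv y) ≤ |cb * sb| * (2 * b * nrm (h x) thv) := by
      refine (le_abs_self _).trans ?_
      rw [abs_mul]; gcongr
    have d1 : (1/2) * δ ^ 2 * (sb ^ 2 * dS4 S x thv y T y T)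
        ≤ (1/2) * δ ^ 2 * (sb ^ 2 * (2 * b * nrm (h x) thv)) := by gcongr
    have d2 : δ * ((cb * sb) * MM m S δ x y T (OmV A x Z thv y))
        ≤ δ * (|cb * sb| * (2 * b * nrm (h x) thv)) := by gcongr
    linarith only [d1, d2]
  exact real4b hδ hδ1 hb1 rfl rfl rfl rfl h12b hgb (nrm_nonneg _ _) heb htt
    (nrm_nonneg _ _) hu hv ((le_abs_self _).trans (nrm_cs hsh hph thu thv))

end

end Pool.Agent.Helper60.MB
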